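import Mathlib

namespace Pool.Agent.Lib.MP_c831ba_nt.OP

/-- The pair of integers with `(x + y √d) ^ k = A + y B √d`, for `w = d y ^ 2`. -/
def AB (x w : ℤ) : ℕ → ℤ × ℤ
  | 0 => (1, 0)
  | k + 1 => (x * (AB x w k).1 + w * (AB x w k).2, x * (AB x w k).2 + (AB x w k).1)

theorem pow_form (d x y : ℤ) (k : ℕ) :
    (⟨x, y⟩ : ℤ√d) ^ k = ⟨(AB x (d * y ^ 2) k).1, y * (AB x (d * y ^ 2) k).2⟩ := by
  induction k with
  | zero => simp [AB, Zsqrtd.ext_iff]
  | succ k ih =>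
    rw [pow_succ, ih]
    simp only [AB, Zsqrtd.ext_iff, Zsqrtd.re_mul, Zsqrtd.im_mul]
    constructor <;> ring

theorem AB_pos (x w : ℤ) (hx : 1 ≤ x) (hw : 1 ≤ w) (k : ℕ) :
    1 ≤ (AB x w k).1 ∧ (k : ℤ) ≤ (AB x w k).2 := by
  induction k with
  | zero => simp [AB]
  | succ k ih =>
    obtain ⟨h1, h2⟩ := ih
    have h3 : (0 : ℤ) ≤ (AB x w k).2 := le_trans (by positivity) h2
    have h4 : (AB x w k).1 ≤ x * (AB x w k).1 := by nlinarith
    have h5 : (AB x w k).2 ≤ x * (AB x w k).2 := by nlinarith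
    have h6 : 0 ≤ w * (AB x w k).2 := by positivity
    simp only [AB]
    push_cast
    constructor
    · linarith
    · linarith

theorem AB_big (x w : ℤ) (hx : 1 ≤ x) (hw : 1 ≤ w) (k : ℕ) (hk : 3 ≤ k) :
    (k : ℤ) < (AB x w k).2 := by
  obtain ⟨l, rfl⟩ := Nat.exists_eq_add_of_le' hk
  obtain ⟨h1, h2⟩ := AB_pos x w hx hw (l + 1)
  obtain ⟨h3, h4⟩ := AB_pos x w hx hw (l + 2)
  have e1 : (AB x w (l + 3)).2 = x * (AB x w (l + 2)).2 + (AB x w (l + 2)).1 := rfl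
  have e2 : (AB x w (l + 2)).1 = x * (AB x w (l + 1)).1 + w * (AB x w (l + 1)).2 := rfl
  rw [e1]
  push_cast at *
  have h5 : (AB x w (l + 1)).1 ≤ x * (AB x w (l + 1)).1 := by nlinarith
  have h6 : (AB x w (l + 1)).2 ≤ w * (AB x w (l + 1)).2 := by nlinarith
  have h7 : (AB x w (l + 2)).2 ≤ x * (AB x w (l + 2)).2 := by nlinarith
  have h8 : (0 : ℤ) ≤ l := by positivity
  linarith

theorem AB_congr (x w : ℤ) (k : ℕ) : ∃ r s : ℤ,
    x ^ 3 * (AB x w k).2 = k * x ^ (k + 2) + (k.choose 3) * x ^ k * w + w ^ 2 * r ∧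
    x ^ 3 * (AB x w k).1 = x ^ (k + 3) + (k.choose 2) * x ^ (k + 1) * w + w ^ 2 * s := by
  induction k with
  | zero => exact ⟨0, 0, by simp [AB], by simp [AB]⟩
  | succ k ih =>
    obtain ⟨r, s, h1, h2⟩ := ih
    refine ⟨x * r + s, x * s + (k.choose 3) * x ^ k + w * r, ?_, ?_⟩
    · have e : ((k + 1).choose 3 : ℤ) = k.choose 2 + k.choose 3 := by
        rw [Nat.choose_succ_succ]; push_cast; rfl
      simp only [AB]
      rw [e]
      push_cast
      linear_combination x * h1 + h2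
    · have e : ((k + 1).choose 2 : ℤ) = k + k.choose 2 := by
        rw [Nat.choose_succ_succ, Nat.choose_one_right]; push_cast; rfl
      simp only [AB]
      rw [e]
      linear_combination x * h2 + w * h1

end Pool.Agent.Lib.MP_c831ba_nt.OP
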