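import Mathlib

namespace Pool.Agent.Lib.MP_c831ba_nt.OP

theorem pow_val_add {Q : Type*} [Group Q] (x : Q) (hx : x * x = 1) (a b : ZMod 2) :
    x ^ (a + b).val = x ^ a.val * x ^ b.val := by
  have h0 : (0 : ZMod 2).val = 0 := rfl
  have h1 : (1 : ZMod 2).val = 1 := rfl
  have ha : a = 0 ∨ a = 1 := by revert a; decide
  have hb : b = 0 ∨ b = 1 := by revert b; decide
  have h2 : (1 : ZMod 2) + 1 = 0 := by decide
  rcases ha with rfl | rfl <;> rcases hb with rfl | rfl <;>
    simp [h0, h1, h2, hx]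

theorem zpow_val {Q : Type*} [Group Q] (x : Q) (hx : x * x = 1) (c : ℤ) :
    x ^ c = x ^ ((c : ZMod 2)).val := by
  have h0 : (0 : ZMod 2).val = 0 := rfl
  have h1 : (1 : ZMod 2).val = 1 := rfl
  have h2 : x ^ (2 : ℤ) = 1 := by rw [zpow_two, hx]
  rcases Int.even_or_odd' c with ⟨k, rfl | rfl⟩
  · have : ((2 * k : ℤ) : ZMod 2) = 0 := by
      rw [ZMod.intCast_zmod_eq_zero_iff_dvd]; exact ⟨k, by push_cast; ring⟩
    rw [this, h0, zpow_mul, h2, one_zpow, pow_zero]
  · have : ((2 * k + 1 : ℤ) : ZMod 2) = 1 := by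
      have h3 : ((2 * k : ℤ) : ZMod 2) = 0 := by
        rw [ZMod.intCast_zmod_eq_zero_iff_dvd]; exact ⟨k, by push_cast; ring⟩
      rw [Int.cast_add, h3]; simp
    rw [this, h1, zpow_add, zpow_mul, h2, one_zpow, one_mul, zpow_one, pow_one]

/-- The relations between generators `g p` of a commutative group `H` give, modulo two, elements of a
group with `2 ^ |P| / [H : H ^ 2]` elements. -/
theorem count {G : Type*} [CommGroup G] (P : Finset ℕ) (g : ℕ → G) (H : Subgroup G)
    (hH : H = Subgroup.closure (g '' P)) :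
    ∃ K : Subgroup (Multiplicative (P → ZMod 2)),
      Nat.card K * (powMonoidHom 2 : H →* H).range.index = 2 ^ P.card ∧
      ∀ c : ℕ → ℤ, ∏ p ∈ P, g p ^ c p = 1 →
        Multiplicative.ofAdd (fun p : P => ((c p : ℤ) : ZMod 2)) ∈ K := by
  classical
  let h : P → H := fun p => ⟨g p, by rw [hH]; exact Subgroup.subset_closure ⟨p, p.2, rfl⟩⟩
  let S : Subgroup H := (powMonoidHom 2 : H →* H).range
  have hsq : ∀ x : H ⧸ S, x * x = 1 := by
    intro x
    obtain ⟨y, rfl⟩ := QuotientGroup.mk_surjective x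
    rw [← QuotientGroup.mk_mul, QuotientGroup.eq_one_iff]
    exact ⟨y, by rw [powMonoidHom_apply, pow_two]⟩
  let Θ : Multiplicative (P → ZMod 2) →* H ⧸ S :=
    { toFun := fun e => ∏ p : P, ((h p : H) : H ⧸ S) ^ ((Multiplicative.toAdd e) p).val
      map_one' := by
        apply Finset.prod_eq_one
        intro p _
        have h0 : (0 : ZMod 2).val = 0 := rfl
        rw [toAdd_one, Pi.zero_apply, h0, pow_zero]
      map_mul' := by
        intro e f
        rw [← Finset.prod_mul_distrib]
        apply Finset.prod_congr rfl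
        intro p _
        rw [toAdd_mul, Pi.add_apply]
        exact pow_val_add _ (hsq _) _ _ }
  have hΘ : ∀ e, Θ e = ∏ p : P, ((h p : H) : H ⧸ S) ^ ((Multiplicative.toAdd e) p).val :=
    fun e => rfl
  have hgen : ∀ p : P, ((h p : H) : H ⧸ S) ∈ Θ.range := by
    intro p
    refine ⟨Multiplicative.ofAdd (Pi.single p 1), ?_⟩
    rw [hΘ, Finset.prod_eq_single p]
    · have h1 : (1 : ZMod 2).val = 1 := rfl
      rw [toAdd_ofAdd, Pi.single_eq_same, h1, pow_one]
    · intro q _ hqp
      have h0 : (0 : ZMod 2).val = 0 := rfl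
      rw [toAdd_ofAdd, Pi.single_eq_of_ne hqp, h0, pow_zero]
    · intro hp
      exact absurd (Finset.mem_univ p) hp
  have hsurj : Function.Surjective Θ := by
    intro x
    obtain ⟨⟨y, hy⟩, rfl⟩ := QuotientGroup.mk_surjective x
    have key : ∀ z ∈ Subgroup.closure (g '' P), ∀ hz : z ∈ H,
        ((⟨z, hz⟩ : H) : H ⧸ S) ∈ Θ.range := by
      intro z hz
      induction hz using Subgroup.closure_induction with
      | mem z hz =>
        obtain ⟨p, hp, rfl⟩ := hz
        intro hz
        exact hgen ⟨p, hp⟩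
      | one =>
        intro hz
        exact one_mem _
      | mul a b ha hb iha ihb =>
        intro hz
        have h1 := iha (by rw [hH]; exact ha)
        have h2 := ihb (by rw [hH]; exact hb)
        exact mul_mem h1 h2
      | inv a ha iha =>
        intro hz
        have h1 := iha (by rw [hH]; exact ha)
        exact inv_mem h1
    obtain ⟨e, he⟩ := key y (by rw [← hH]; exact hy) hy
    exact ⟨e, he⟩
  refine ⟨Θ.ker, ?_, ?_⟩
  · have h1 := Subgroup.card_mul_index Θ.ker
    have h2 : Θ.ker.index = S.index := by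
      rw [Subgroup.index_ker, MonoidHom.range_eq_top.2 hsurj, Subgroup.card_top]
      rfl
    rw [h2] at h1
    rw [h1]
    simp [Nat.card_eq_fintype_card]
  · intro c hc
    rw [MonoidHom.mem_ker, hΘ]
    have h1 : ∏ p : P, (h p) ^ (c p) = 1 := by
      apply Subtype.ext
      rw [Subgroup.val_finsetProd, Subgroup.coe_one, ← hc, ← Finset.prod_coe_sort P]
      rfl
    have h2 : ((∏ p : P, (h p) ^ (c p) : H) : H ⧸ S) = ∏ p : P, ((h p : H) : H ⧸ S) ^ (c p) := by
      have := map_prod (QuotientGroup.mk' S) (fun p : P => (h p) ^ (c p)) Finset.univ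
      simp
    rw [h1, QuotientGroup.mk_one] at h2
    rw [h2]
    apply Finset.prod_congr rfl
    intro p _
    rw [toAdd_ofAdd]
    exact (zpow_val _ (hsq _) _).symm

end Pool.Agent.Lib.MP_c831ba_nt.OP
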