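import Pool.Agent.Lib.MP_c831ba_nt.OP.Gauss

namespace Pool.Agent.Lib.MP_c831ba_nt.OP

theorem units_cases {u : GaussianInt} (h1 : u.norm = 1) :
    (u = 1 ∨ u = -1) ∨ (u = ⟨0, 1⟩ ∨ u = ⟨0, -1⟩) := by
  rw [Zsqrtd.norm_def] at h1
  obtain ⟨x, y⟩ := u
  simp only at h1
  have hx : x * x ≤ 1 := by nlinarith [mul_self_nonneg y]
  have hy : y * y ≤ 1 := by nlinarith [mul_self_nonneg x]
  have hx1 : x ≤ 1 := by nlinarith
  have hx2 : -1 ≤ x := by nlinarith
  have hy1 : y ≤ 1 := by nlinarith
  have hy2 : -1 ≤ y := by nlinarith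
  interval_cases x <;> interval_cases y <;> simp_all [Zsqrtd.ext_iff]

theorem re_odd {δ : GaussianInt} {p : ℕ} (hp : p.Prime) (h : δ.norm = p) (he : Even δ.im) :
    Odd δ.re := by
  rw [← Int.not_even_iff_odd]
  intro hr
  obtain ⟨x, hx⟩ := hr
  obtain ⟨y, hy⟩ := he
  rw [Zsqrtd.norm_def, hx, hy] at h
  have h1 : (4 : ℤ) ∣ (p : ℤ) := by
    rw [← h]
    exact ⟨x * x + y * y, by ring⟩
  have h2 : 4 ∣ p := by exact_mod_cast h1
  have h3 : 2 ∣ p := Dvd.dvd.trans (by norm_num) h2
  have h4 := (Nat.prime_dvd_prime_iff_eq Nat.prime_two hp).1 h3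
  rw [← h4] at h2
  omega

variable {A : Type*} [CommRing A]

/-- Factorisation of the image of `μ / star μ`. -/
theorem expo2 (φ : GaussianInt →+* A) (P : Finset ℕ) (π : ℕ → GaussianInt)
    (hπ : ∀ p ∈ P, (π p).norm = p) (hev : ∀ p ∈ P, Even (π p).im) (g : ℕ → Aˣ)
    (hg : ∀ p ∈ P, (g p : A) * φ (star (π p)) = φ (π p)) :
    ∀ N : ℕ, N ≠ 0 → ∀ μ : GaussianInt, μ.norm = N → (∀ p, p.Prime → p ∣ N → p ∈ P) →
      ∃ (c : ℕ → ℤ) (s : ℤ), (s = 1 ∨ s = -1) ∧ (∀ p ∈ P, (2 : ℤ) ∣ c p - N.factorization p) ∧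
        (Even μ.im → s = 1) ∧
        φ μ = (s : A) * ((∏ p ∈ P, g p ^ c p : Aˣ) : A) * φ (star μ) := by
  intro N
  induction N using Nat.strong_induction_on with
  | _ N ih =>
    intro hN μ hμ hP
    rcases Nat.lt_or_ge 1 N with h1 | h1
    · obtain ⟨p, hp, hpN⟩ := Nat.exists_prime_and_dvd (n := N) (by omega)
      have hpP := hP p hp hpN
      obtain ⟨N', rfl⟩ := hpN
      have hN' : N' ≠ 0 := by rintro rfl; simp at hN
      have hlt : N' < p * N' := by
        have := hp.one_lt
        have h2 : 0 < N' := Nat.pos_of_ne_zero hN'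
        nlinarith
      have hpr : Prime (π p) := (irreducible_of_norm hp (hπ p hpP)).prime
      have hre := re_odd hp (hπ p hpP) (hev p hpP)
      have him := hev p hpP
      have hd : π p ∣ μ * star μ := by
        rw [← Zsqrtd.norm_eq_mul_conj, hμ]
        push_cast
        have h3 : (p : GaussianInt) = π p * star (π p) := by
          rw [← Zsqrtd.norm_eq_mul_conj, hπ p hpP]; push_cast; rfl
        rw [h3, mul_assoc]
        exact dvd_mul_right _ _
      have hfac : ∀ q, ((p * N').factorization q : ℤ) =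
          N'.factorization q + (if q = p then 1 else 0) := by
        intro q
        rw [Nat.factorization_mul hp.ne_zero hN', hp.factorization]
        by_cases hq : q = p
        · subst hq; simp; ring
        · simp [hq]
      have hnn : ∀ ν : GaussianInt, (p : ℤ) * ν.norm = ((p * N' : ℕ) : ℤ) → ν.norm = N' := by
        intro ν h4
        push_cast at h4
        exact mul_left_cancel₀ (by exact_mod_cast hp.ne_zero) h4
      have hP' : ∀ q, q.Prime → q ∣ N' → q ∈ P := fun q hq h4 => hP q hq (Dvd.dvd.mul_left h4 _)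
      have hodd : ¬ Even (π p).re := by rwa [Int.not_even_iff_odd]
      rcases hpr.dvd_or_dvd hd with ⟨ν, hν⟩ | ⟨ν, hν⟩
      · have h4 : ν.norm = N' := by
          apply hnn
          rw [← hπ p hpP, ← Zsqrtd.norm_mul, ← hν, hμ]
        obtain ⟨c, s, hs, hc, hse, hcp⟩ := ih N' hlt hN' ν h4 hP'
        refine ⟨fun q => c q + (if q = p then 1 else 0), s, hs, ?_, ?_, ?_⟩
        · intro q hq
          rw [hfac]
          have := hc q hq
          simpa using this
        · intro he
          apply hse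
          rw [hν, Zsqrtd.im_mul, Int.even_add, Int.even_mul, Int.even_mul] at he
          tauto
        · have h5 : ∏ q ∈ P, g q ^ (c q + (if q = p then (1 : ℤ) else 0)) =
              (∏ q ∈ P, g q ^ (c q)) * g p := by
            have h6 : ∏ q ∈ P, g q ^ (c q + (if q = p then (1 : ℤ) else 0)) =
                ∏ q ∈ P, (g q ^ (c q) * (if q = p then g p else 1)) := by
              apply Finset.prod_congr rfl
              intro q hq
              rw [zpow_add]
              by_cases hqp : q = p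
              · subst hqp; simp
              · simp [hqp]
            rw [h6, Finset.prod_mul_distrib, Finset.prod_ite_eq' P p, if_pos hpP]
          rw [h5, hν, star_mul', map_mul, map_mul, Units.val_mul, hcp, ← hg p hpP]
          ring
      · have hν' : μ = star (π p) * star ν := by
          have := congrArg star hν
          rw [star_star, star_mul'] at this
          exact this
        have h4 : (star ν).norm = N' := by
          apply hnn
          rw [← hπ p hpP, ← Zsqrtd.norm_conj (π p), ← Zsqrtd.norm_mul, ← hν', hμ]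
        obtain ⟨c, s, hs, hc, hse, hcp⟩ := ih N' hlt hN' (star ν) h4 hP'
        refine ⟨fun q => c q - (if q = p then 1 else 0), s, hs, ?_, ?_, ?_⟩
        · intro q hq
          rw [hfac]
          have := hc q hq
          by_cases hqp : q = p
          · simp only [hqp, if_true] at this ⊢
            omega
          · simpa [hqp] using this
        · intro he
          apply hse
          rw [hν', Zsqrtd.im_mul, Int.even_add, Int.even_mul, Int.even_mul, Zsqrtd.re_star,
            Zsqrtd.im_star (π p), even_neg] at he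
          tauto
        · have h5 : ∏ q ∈ P, g q ^ (c q - (if q = p then (1 : ℤ) else 0)) =
              (∏ q ∈ P, g q ^ (c q)) * (g p)⁻¹ := by
            have h6 : ∏ q ∈ P, g q ^ (c q - (if q = p then (1 : ℤ) else 0)) =
                ∏ q ∈ P, (g q ^ (c q) * (if q = p then (g p)⁻¹ else 1)) := by
              apply Finset.prod_congr rfl
              intro q hq
              rw [zpow_sub]
              by_cases hqp : q = p
              · subst hqp; simp
              · simp [hqp]
            rw [h6, Finset.prod_mul_distrib, Finset.prod_ite_eq' P p, if_pos hpP]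
          have h7 : φ (star (π p)) = ((g p)⁻¹ : Aˣ) * φ (π p) := by
            rw [← hg p hpP, ← mul_assoc, Units.inv_mul, one_mul]
          rw [h5, hν', star_mul', star_star, star_star, map_mul, map_mul, Units.val_mul, hcp, h7,
            star_star]
          ring
    · have hN1 : N = 1 := by omega
      subst hN1
      have h2 : μ.norm = 1 := by rw [hμ]; rfl
      rcases units_cases h2 with h3 | h3
      · refine ⟨fun _ => 0, 1, Or.inl rfl, by simp, fun _ => rfl, ?_⟩
        have h4 : star μ = μ := by rcases h3 with rfl | rfl <;> simp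
        rw [h4]
        simp
      · refine ⟨fun _ => 0, -1, Or.inr rfl, by simp, ?_, ?_⟩
        · intro he
          exfalso
          rcases h3 with rfl | rfl
          · exact absurd he (by decide)
          · exact absurd he (by decide)
        · have h4 : star μ = -μ := by
            rcases h3 with rfl | rfl <;> simp [Zsqrtd.ext_iff]
          rw [h4]
          simp

/-- the relation of an even `m` -/
theorem even_rel (φ : GaussianInt →+* A) (P : Finset ℕ) (π : ℕ → GaussianInt)
    (hπ : ∀ p ∈ P, (π p).norm = p) (hev : ∀ p ∈ P, Even (π p).im) (g : ℕ → Aˣ)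
    (hg : ∀ p ∈ P, (g p : A) * φ (star (π p)) = φ (π p)) (m : ℤ) (hm : Even m)
    (hφ : φ ((m : ℤ) : GaussianInt) = 0) (N : ℕ) (hN : m ^ 2 + 1 = N)
    (hP : ∀ p, p.Prime → p ∣ N → p ∈ P) :
    ∃ c : ℕ → ℤ, (∀ p ∈ P, (2 : ℤ) ∣ c p - N.factorization p) ∧ ∏ p ∈ P, g p ^ c p = 1 := by
  have hN0 : N ≠ 0 := by
    rintro rfl
    have : 0 ≤ m ^ 2 := by positivity
    push_cast at hN
    linarith
  obtain ⟨c, s, _, hc, hse, h⟩ := expo2 φ P π hπ hev g hg N hN0 ⟨-1, m⟩
    (by rw [Zsqrtd.norm_def, ← hN]; ring) hP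
  refine ⟨c, hc, ?_⟩
  have hs := hse hm
  have h1 : (⟨-1, m⟩ : GaussianInt) = -1 + (m : GaussianInt) * ⟨0, 1⟩ := by
    simp [Zsqrtd.ext_iff]
  have h2 : star (⟨-1, m⟩ : GaussianInt) = -1 - (m : GaussianInt) * ⟨0, 1⟩ := by
    simp [Zsqrtd.ext_iff]
  rw [h2, h1, map_add, map_sub, map_mul, hφ, hs] at h
  simp only [map_neg, map_one, zero_mul, add_zero, sub_zero, Int.cast_one, one_mul, mul_neg,
    mul_one, neg_inj] at h
  exact (Units.ext (by rw [Units.val_one]; exact h.symm))

/-- the relation of an odd `m` -/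
theorem odd_rel (φ : GaussianInt →+* A) (h2A : ∀ x y : A, 2 * x = 2 * y → x = y)
    (P : Finset ℕ) (π : ℕ → GaussianInt)
    (hπ : ∀ p ∈ P, (π p).norm = p) (hev : ∀ p ∈ P, Even (π p).im) (g : ℕ → Aˣ)
    (hg : ∀ p ∈ P, (g p : A) * φ (star (π p)) = φ (π p)) (m : ℤ)
    (hφ : φ ((m : ℤ) : GaussianInt) = 0) (M : ℕ) (hM : m ^ 2 + 1 = 2 * M)
    (hP : ∀ p, p.Prime → p ∣ M → p ∈ P) :
    ∃ (c : ℕ → ℤ) (s : ℤ), (s = 1 ∨ s = -1) ∧ (∀ p ∈ P, (2 : ℤ) ∣ c p - M.factorization p) ∧
      ((∏ p ∈ P, g p ^ c p : Aˣ) : A) = s * φ ⟨0, 1⟩ := by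
  obtain ⟨μ, hμ, hμm⟩ := factor_two hM
  have hM0 : M ≠ 0 := by
    rintro rfl
    have : 0 ≤ m ^ 2 := by positivity
    push_cast at hM
    linarith
  obtain ⟨c, s, hs, hc, _, h⟩ := expo2 φ P π hπ hev g hg M hM0 μ hμ hP
  refine ⟨c, s, hs, hc, ?_⟩
  obtain ⟨I, hI⟩ : ∃ I, I = φ ⟨0, 1⟩ := ⟨_, rfl⟩
  have hI2 : I * I = -1 := by
    rw [hI, ← map_mul]
    have : (⟨0, 1⟩ : GaussianInt) * ⟨0, 1⟩ = -1 := by simp [Zsqrtd.ext_iff]
    rw [this]
    simp
  have e1 : (⟨m, 1⟩ : GaussianInt) = (m : GaussianInt) + ⟨0, 1⟩ := by simp [Zsqrtd.ext_iff]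
  have e2 : star (⟨m, 1⟩ : GaussianInt) = (m : GaussianInt) - ⟨0, 1⟩ := by simp [Zsqrtd.ext_iff]
  have e3 : (⟨1, 1⟩ : GaussianInt) = 1 + ⟨0, 1⟩ := by simp [Zsqrtd.ext_iff]
  have e4 : star (⟨1, 1⟩ : GaussianInt) = 1 - ⟨0, 1⟩ := by simp [Zsqrtd.ext_iff]
  have f1 : I = (1 + I) * φ μ := by
    have := congrArg φ hμm
    rw [e1, e3, map_mul, map_add, map_add, hφ, map_one, zero_add, ← hI] at this
    exact this
  have f2 : -I = (1 - I) * φ (star μ) := by
    have := congrArg (fun z => φ (star z)) hμm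
    simp only [star_mul'] at this
    rw [e2, e4, map_mul, map_sub, map_sub, hφ, map_one, zero_sub, ← hI] at this
    exact this
  rw [← hI]
  obtain ⟨G, hG⟩ : ∃ G, G = ((∏ p ∈ P, g p ^ c p : Aˣ) : A) := ⟨_, rfl⟩
  rw [← hG] at h ⊢
  have hss : (s : A) * s = 1 := by
    rcases hs with rfl | rfl <;> simp
  have g1 : (1 + I) = s * G * (1 - I) := by
    have : (1 - I) * ((1 + I) * φ μ) = s * G * ((1 + I) * ((1 - I) * φ (star μ))) := by
      rw [h]; ring
    rw [← f1, ← f2] at this
    linear_combination this + (1 - s * G) * hI2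
  apply h2A
  have g2 : (1 + I) * (1 + I) = s * G * (1 - I) * (1 + I) := by rw [← g1]
  have g3 : 2 * I = s * G * 2 := by linear_combination g2 - (1 + s * G) * hI2
  have g4 : 2 * (s * I) = 2 * G * (s * s) := by linear_combination s * g3
  rw [hss] at g4
  linear_combination -g4

end Pool.Agent.Lib.MP_c831ba_nt.OP
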