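import Mathlib

namespace Pool.Agent.Lib.MP_c831ba_nt.OP

theorem norm_isUnit {u : GaussianInt} (h : IsUnit u) : u.norm = 1 := by
  have h1 := Zsqrtd.norm_eq_one_iff.2 h
  have h2 := GaussianInt.norm_nonneg u
  omega

theorem sq_isUnit {u : GaussianInt} (h : IsUnit u) : u ^ 2 = 1 ∨ u ^ 2 = -1 := by
  have h1 := norm_isUnit h
  rw [Zsqrtd.norm_def] at h1
  obtain ⟨x, y⟩ := u
  simp only at h1
  have hx : x * x ≤ 1 := by nlinarith [mul_self_nonneg y]
  have hy : y * y ≤ 1 := by nlinarith [mul_self_nonneg x]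
  have hx1 : x ≤ 1 := by nlinarith
  have hx2 : -1 ≤ x := by nlinarith
  have hy1 : y ≤ 1 := by nlinarith
  have hy2 : -1 ≤ y := by nlinarith
  interval_cases x <;> interval_cases y <;> simp_all [pow_two, Zsqrtd.ext_iff]

theorem irreducible_of_norm {δ : GaussianInt} {p : ℕ} (hp : p.Prime) (h : δ.norm = p) :
    Irreducible δ := by
  constructor
  · intro hu
    have h1 := norm_isUnit hu
    rw [h] at h1
    exact hp.one_lt.ne' (by exact_mod_cast h1)
  · intro x y hxy
    have h1 : x.norm * y.norm = p := by rw [← Zsqrtd.norm_mul, ← hxy, h]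
    have h2 : x.norm.natAbs * y.norm.natAbs = p := by
      rw [← Int.natAbs_mul, h1]; simp
    have h3 : x.norm.natAbs = 1 ∨ y.norm.natAbs = 1 := by
      rcases (Nat.dvd_prime hp).1 ⟨_, h2.symm⟩ with h4 | h4
      · exact Or.inl h4
      · right
        rw [h4] at h2
        exact Nat.eq_of_mul_eq_mul_left hp.pos (by rw [h2, mul_one])
    rcases h3 with h3 | h3
    · exact Or.inl (Zsqrtd.norm_eq_one_iff.1 h3)
    · exact Or.inr (Zsqrtd.norm_eq_one_iff.1 h3)

variable {K : Type*} [Field K]

/-- Values of a homomorphism at Gaussian integers whose norm has all its primes in `P`. -/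
theorem expo (ψ : GaussianInt →* K) (hu : ∀ u, IsUnit u → ψ u ^ 2 = 1)
    (hs : ∀ z, ψ (star z) = (ψ z)⁻¹) (P : Finset ℕ) (π : ℕ → GaussianInt)
    (hπ : ∀ p ∈ P, (π p).norm = p) (h0 : ∀ p ∈ P, ψ (π p) ≠ 0) :
    ∀ N : ℕ, N ≠ 0 → ∀ μ : GaussianInt, μ.norm = N → (∀ p, p.Prime → p ∣ N → p ∈ P) →
      ∃ c : ℕ → ℤ, (∀ p ∈ P, (2 : ℤ) ∣ c p - N.factorization p) ∧
        ψ μ ^ 2 = ∏ p ∈ P, (ψ (π p) ^ 2) ^ (c p) := by
  intro N
  induction N using Nat.strong_induction_on with
  | _ N ih =>
    intro hN μ hμ hP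
    rcases Nat.lt_or_ge 1 N with h1 | h1
    · obtain ⟨p, hp, hpN⟩ := Nat.exists_prime_and_dvd (n := N) (by omega)
      have hpP := hP p hp hpN
      obtain ⟨N', rfl⟩ := hpN
      have hN' : N' ≠ 0 := by rintro rfl; simp at hN
      have hlt : N' < p * N' := by
        have := hp.one_lt
        have h2 : 0 < N' := Nat.pos_of_ne_zero hN'
        nlinarith
      have hpr : Prime (π p) := (irreducible_of_norm hp (hπ p hpP)).prime
      have hd : π p ∣ μ * star μ := by
        rw [← Zsqrtd.norm_eq_mul_conj, hμ]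
        push_cast
        have h3 : (p : GaussianInt) = π p * star (π p) := by
          rw [← Zsqrtd.norm_eq_mul_conj, hπ p hpP]; push_cast; rfl
        rw [h3, mul_assoc]
        exact dvd_mul_right _ _
      have hfac : ∀ q, ((p * N').factorization q : ℤ) =
          N'.factorization q + (if q = p then 1 else 0) := by
        intro q
        rw [Nat.factorization_mul hp.ne_zero hN', hp.factorization]
        by_cases hq : q = p
        · subst hq; simp; ring
        · simp [hq]
      have hnn : ∀ ν : GaussianInt, (p : ℤ) * ν.norm = ((p * N' : ℕ) : ℤ) → ν.norm = N' := by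
        intro ν h4
        push_cast at h4
        exact mul_left_cancel₀ (by exact_mod_cast hp.ne_zero) h4
      have hP' : ∀ q, q.Prime → q ∣ N' → q ∈ P := fun q hq h4 => hP q hq (Dvd.dvd.mul_left h4 _)
      rcases hpr.dvd_or_dvd hd with ⟨ν, hν⟩ | ⟨ν, hν⟩
      · have h4 : ν.norm = N' := by
          apply hnn
          rw [← hπ p hpP, ← Zsqrtd.norm_mul, ← hν, hμ]
        obtain ⟨c, hc, hcp⟩ := ih N' hlt hN' ν h4 hP'
        refine ⟨fun q => c q + (if q = p then 1 else 0), ?_, ?_⟩
        · intro q hq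
          rw [hfac]
          have := hc q hq
          simpa using this
        · rw [hν, map_mul, mul_pow, hcp]
          have h5 : ∏ q ∈ P, (ψ (π q) ^ 2) ^ (c q + (if q = p then (1 : ℤ) else 0)) =
              ∏ q ∈ P, ((ψ (π q) ^ 2) ^ (c q) * (if q = p then ψ (π p) ^ 2 else 1)) := by
            apply Finset.prod_congr rfl
            intro q hq
            rw [zpow_add₀ (pow_ne_zero 2 (h0 q hq))]
            by_cases hqp : q = p
            · subst hqp; simp
            · simp [hqp]
          rw [h5, Finset.prod_mul_distrib, Finset.prod_ite_eq' P p, if_pos hpP, mul_comm]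
      · have hν' : μ = star (π p) * star ν := by
          have := congrArg star hν
          rw [star_star, star_mul'] at this
          exact this
        have h4 : (star ν).norm = N' := by
          apply hnn
          rw [← hπ p hpP, ← Zsqrtd.norm_conj (π p), ← Zsqrtd.norm_mul, ← hν', hμ]
        obtain ⟨c, hc, hcp⟩ := ih N' hlt hN' (star ν) h4 hP'
        refine ⟨fun q => c q - (if q = p then 1 else 0), ?_, ?_⟩
        · intro q hq
          rw [hfac]
          have := hc q hq
          by_cases hqp : q = p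
          · simp only [hqp, if_true] at this ⊢
            omega
          · simpa [hqp] using this
        · rw [hν', map_mul, mul_pow, hcp, hs]
          have h5 : ∏ q ∈ P, (ψ (π q) ^ 2) ^ (c q - (if q = p then (1 : ℤ) else 0)) =
              ∏ q ∈ P, ((ψ (π q) ^ 2) ^ (c q) * (if q = p then (ψ (π p))⁻¹ ^ 2 else 1)) := by
            apply Finset.prod_congr rfl
            intro q hq
            rw [zpow_sub₀ (pow_ne_zero 2 (h0 q hq))]
            by_cases hqp : q = p
            · subst hqp; simp [div_eq_mul_inv]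
            · simp [hqp]
          rw [h5, Finset.prod_mul_distrib, Finset.prod_ite_eq' P p, if_pos hpP, mul_comm]
    · have hN1 : N = 1 := by omega
      subst hN1
      refine ⟨fun _ => 0, by simp, ?_⟩
      simp only [zpow_zero, Finset.prod_const_one]
      apply hu
      rw [← Zsqrtd.norm_eq_one_iff, hμ]; rfl

/-- `(1 + i)` divides `m + i` for odd `m`. -/
theorem factor_two {m : ℤ} {M : ℕ} (hm : m ^ 2 + 1 = 2 * M) :
    ∃ μ : GaussianInt, μ.norm = M ∧ (⟨m, 1⟩ : GaussianInt) = ⟨1, 1⟩ * μ := by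
  obtain ⟨h, rfl⟩ : ∃ h, m = 2 * h + 1 := by
    rcases Int.even_or_odd' m with ⟨h, rfl | rfl⟩
    · exfalso
      have : (2 * h) ^ 2 + 1 = 2 * (2 * h ^ 2) + 1 := by ring
      omega
    · exact ⟨h, rfl⟩
  refine ⟨⟨h + 1, -h⟩, ?_, ?_⟩
  · rw [Zsqrtd.norm_def]
    nlinarith
  · simp only [Zsqrtd.ext_iff, Zsqrtd.re_mul, Zsqrtd.im_mul]
    constructor <;> ring

end Pool.Agent.Lib.MP_c831ba_nt.OP
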