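import Pool.Agent.Lib.MP_c831ba_nt.OP.Same

namespace Pool.Agent.Lib.MP_c831ba_nt.OP

theorem exists_common (X Y : ℕ) (hX : X ≠ 0) (hY : Y ≠ 0)
    (h : ∀ p, X.factorization p % 2 = Y.factorization p % 2) :
    ∃ D y z : ℕ, 1 ≤ y ∧ 1 ≤ z ∧ X = D * y ^ 2 ∧ Y = D * z ^ 2 := by
  obtain ⟨D, y, hy, hD⟩ := Nat.sq_mul_squarefree X
  obtain ⟨E, z, hz, hE⟩ := Nat.sq_mul_squarefree Y
  have hy0 : y ≠ 0 := by rintro rfl; simp at hy; exact hX hy.symm
  have hz0 : z ≠ 0 := by rintro rfl; simp at hz; exact hY hz.symm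
  have hD0 : D ≠ 0 := by rintro rfl; simp at hy; exact hX hy.symm
  have hE0 : E ≠ 0 := by rintro rfl; simp at hz; exact hY hz.symm
  have hDE : D = E := by
    apply Nat.eq_of_factorization_eq hD0 hE0
    intro p
    have h1 := h p
    rw [← hy, ← hz, Nat.factorization_mul (pow_ne_zero 2 hy0) hD0,
      Nat.factorization_mul (pow_ne_zero 2 hz0) hE0, Nat.factorization_pow,
      Nat.factorization_pow] at h1
    simp only [Finsupp.add_apply, Finsupp.smul_apply, smul_eq_mul] at h1
    have h2 := hD.natFactorization_le_one p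
    have h3 := hE.natFactorization_le_one p
    omega
  refine ⟨D, y, z, Nat.pos_of_ne_zero hy0, Nat.pos_of_ne_zero hz0, ?_, ?_⟩
  · rw [← hy]; ring
  · rw [← hz, ← hDE]; ring

theorem eq_of_parity (m n : ℕ) (hm : 0 < m) (hn : 0 < n)
    (hrad : (m ^ 2 + 1).primeFactors = (n ^ 2 + 1).primeFactors)
    (h : ∀ p, (m ^ 2 + 1).factorization p % 2 = (n ^ 2 + 1).factorization p % 2) : m = n := by
  obtain ⟨D, y, z, hy, hz, h1, h2⟩ := exists_common (m ^ 2 + 1) (n ^ 2 + 1) (by positivity)
    (by positivity) h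
  have h1' : (m : ℤ) ^ 2 + 1 = D * (y : ℤ) ^ 2 := by exact_mod_cast h1
  have h2' : (n : ℤ) ^ 2 + 1 = D * (z : ℤ) ^ 2 := by exact_mod_cast h2
  have h3 := same_class D m y n z (by exact_mod_cast hm) (by exact_mod_cast hy)
    (by exact_mod_cast hn) (by exact_mod_cast hz) (by linear_combination h1')
    (by linear_combination h2') (by
      intro p hp
      have e1 : ((p : ℤ) ∣ (m : ℤ) ^ 2 + 1) ↔ p ∣ m ^ 2 + 1 := by
        rw [← Int.natCast_dvd_natCast]; push_cast; rfl
      have e2 : ((p : ℤ) ∣ (n : ℤ) ^ 2 + 1) ↔ p ∣ n ^ 2 + 1 := by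
        rw [← Int.natCast_dvd_natCast]; push_cast; rfl
      rw [e1, e2]
      have e3 : p ∈ (m ^ 2 + 1).primeFactors ↔ p ∈ (n ^ 2 + 1).primeFactors := by rw [hrad]
      rw [Nat.mem_primeFactors, Nat.mem_primeFactors] at e3
      constructor
      · intro h4
        exact (e3.1 ⟨hp, h4, by positivity⟩).2.1
      · intro h4
        exact (e3.2 ⟨hp, h4, by positivity⟩).2.1)
  exact_mod_cast h3

theorem pos_of_sq {m : ℕ} (h : 0 < m * m) : 0 < m := by
  rcases Nat.eq_zero_or_pos m with rfl | h1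
  · simp at h
  · exact h1

/-- The squares in `S(a)`. -/
def sqs (a : ℕ) : Set ℕ := {x | 0 < x ∧ IsSquare x ∧ x.primeFactors = a.primeFactors ∧
  (x + 1).primeFactors = (a + 1).primeFactors}

/-- The vector of exponents modulo two. -/
def cvec (P : Finset ℕ) (x : ℕ) : P → ZMod 2 := fun p => ((x + 1).factorization p : ZMod 2)

theorem cast_eq_iff (m n : ℕ) : ((m : ZMod 2) = n) ↔ m % 2 = n % 2 := by
  rw [ZMod.natCast_eq_natCast_iff']

/-- Injectivity of the vector of exponents. -/
theorem inj (a : ℕ) (P : Finset ℕ) (hP : P = (a + 1).primeFactors.erase 2)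
    (h2 : ∀ x ∈ sqs a, ∀ y ∈ sqs a, (x + 1).factorization 2 % 2 = (y + 1).factorization 2 % 2) :
    Set.InjOn (cvec P) (sqs a) := by
  intro x hx x' hx' hf
  obtain ⟨m, rfl⟩ := hx.2.1
  obtain ⟨n, rfl⟩ := hx'.2.1
  have hm : 0 < m := pos_of_sq hx.1
  have hn : 0 < n := pos_of_sq hx'.1
  have h1 : m = n := by
    apply eq_of_parity m n hm hn
    · rw [pow_two, pow_two, hx.2.2.2, hx'.2.2.2]
    · intro p
      rw [pow_two, pow_two]
      by_cases hp : p ∈ P
      · have h3 := congrFun hf ⟨p, hp⟩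
        simp only [cvec] at h3
        exact (cast_eq_iff _ _).1 h3
      · by_cases hp2 : p = 2
        · subst hp2
          exact h2 _ hx _ hx'
        · have hp3 : p ∉ (a + 1).primeFactors := by
            intro h4
            exact hp (by rw [hP, Finset.mem_erase]; exact ⟨hp2, h4⟩)
          have h4 : (m * m + 1).factorization p = 0 := by
            rw [← hx.2.2.2, ← Nat.support_factorization] at hp3
            exact Finsupp.notMem_support_iff.1 hp3
          have h5 : (n * n + 1).factorization p = 0 := by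
            rw [← hx'.2.2.2, ← Nat.support_factorization] at hp3
            exact Finsupp.notMem_support_iff.1 hp3
          rw [h4, h5]
  rw [h1]

end Pool.Agent.Lib.MP_c831ba_nt.OP
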