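import Pool.Agent.Lib.MP_c831ba_nt.OP.Inj
import Pool.Agent.Lib.MP_c831ba_nt.OP.Fac
import Pool.Agent.Lib.MP_c831ba_nt.OP.Cnt

namespace Pool.Agent.Lib.MP_c831ba_nt.OP

theorem rad_dvd (a m : ℕ) (hm : m * m ∈ sqs a) : (∏ q ∈ a.primeFactors.erase 2, q) ∣ m := by
  apply Finset.prod_primes_dvd
  · intro q hq
    exact (Nat.mem_primeFactors.1 (Finset.mem_of_mem_erase hq)).1.prime
  · intro q hq
    have h1 := Finset.mem_of_mem_erase hq
    rw [← hm.2.2.1] at h1
    have h2 := Nat.mem_primeFactors.1 h1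
    rcases (Nat.Prime.dvd_mul h2.1).1 h2.2.1 with h3 | h3 <;> exact h3

theorem rad_odd (a : ℕ) : Odd (∏ q ∈ a.primeFactors.erase 2, q) := by
  apply Finset.prod_induction _ Odd (fun x y hx hy => hx.mul hy) odd_one
  intro q hq
  rw [Finset.mem_erase] at hq
  exact (Nat.mem_primeFactors.1 hq.2).1.odd_of_ne_two hq.1

theorem cancel_two {A : Type*} [CommRing A] (φ : GaussianInt →+* A) (R : ℕ) (hR : Odd R)
    (hφ : φ (R : GaussianInt) = 0) (x y : A) (h : 2 * x = 2 * y) : x = y := by
  obtain ⟨k, rfl⟩ := hR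
  have h1 : (2 : A) * k = -1 := by
    have h2 : φ ((2 * k + 1 : ℕ) : GaussianInt) = 2 * (k : A) + 1 := by
      rw [map_natCast]
      push_cast
      rfl
    rw [h2] at hφ
    linear_combination hφ
  linear_combination (-(k : A)) * h + (x - y) * h1

theorem phi_m {A : Type*} [CommRing A] (φ : GaussianInt →+* A) (a m : ℕ) (hm : m * m ∈ sqs a)
    (hφR : φ ((∏ q ∈ a.primeFactors.erase 2, q : ℕ) : GaussianInt) = 0) :
    φ (((m : ℕ) : ℤ) : GaussianInt) = 0 := by
  obtain ⟨t, ht⟩ := rad_dvd a m hm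
  have h1 : (((m : ℕ) : ℤ) : GaussianInt) =
      ((∏ q ∈ a.primeFactors.erase 2, q : ℕ) : GaussianInt) * (t : GaussianInt) := by
    rw [← Nat.cast_mul, ← ht, Int.cast_natCast]
  rw [h1, map_mul, hφR, zero_mul]

section
variable {A : Type*} [CommRing A] (φ : GaussianInt →+* A) (a : ℕ) (P : Finset ℕ)
  (hP : P = (a + 1).primeFactors.erase 2)
  (hφR : φ ((∏ q ∈ a.primeFactors.erase 2, q : ℕ) : GaussianInt) = 0)
  (π : ℕ → GaussianInt) (hπ : ∀ p ∈ P, (π p).norm = p) (hev : ∀ p ∈ P, Even (π p).im)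
  (g : ℕ → Aˣ) (hg : ∀ p ∈ P, (g p : A) * φ (star (π p)) = φ (π p))
  (K : Subgroup (Multiplicative (P → ZMod 2)))
  (hK : ∀ c : ℕ → ℤ, ∏ p ∈ P, g p ^ c p = 1 →
    Multiplicative.ofAdd (fun p : P => ((c p : ℤ) : ZMod 2)) ∈ K)

include hP hφR hπ hev hg hK

theorem odd_main (ha : Odd a) : (sqs a).encard ≤ ((Nat.card K : ℕ) : ℕ∞) := by
  classical
  rcases Set.eq_empty_or_nonempty (sqs a) with hemp | ⟨x₀, hx₀⟩
  · rw [hemp, Set.encard_empty]; exact bot_le
  have hmem2 : 2 ∈ (a + 1).primeFactors := by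
    refine Nat.mem_primeFactors.2 ⟨Nat.prime_two, ?_, by omega⟩
    obtain ⟨k, rfl⟩ := ha
    exact ⟨k + 1, by ring⟩
  have hhalf : ∀ m : ℕ, m * m ∈ sqs a → ∃ M : ℕ, m * m + 1 = 2 * M ∧ M % 2 = 1 := by
    intro m hm
    have h1 : 2 ∈ (m * m + 1).primeFactors := by rw [hm.2.2.2]; exact hmem2
    obtain ⟨M, hM⟩ := (Nat.mem_primeFactors.1 h1).2.1
    refine ⟨M, hM, ?_⟩
    have h2 : m % 2 = 1 := by
      by_contra hc
      have h3 : m % 2 = 0 := by omega
      obtain ⟨k, hk⟩ : ∃ k, m = 2 * k := ⟨m / 2, by omega⟩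
      rw [hk] at hM
      have h4 : 2 * k * (2 * k) = 2 * (2 * k * k) := by ring
      omega
    obtain ⟨k, hk⟩ : ∃ k, m = 2 * k + 1 := ⟨m / 2, by omega⟩
    have h3 : M = 2 * (k * k + k) + 1 := by
      have : (2 * k + 1) * (2 * k + 1) + 1 = 2 * (2 * (k * k + k) + 1) := by ring
      rw [hk] at hM
      omega
    omega
  have hv2 : ∀ x ∈ sqs a, (x + 1).factorization 2 = 1 := by
    intro x hx
    obtain ⟨m, rfl⟩ := hx.2.1
    obtain ⟨M, hM, hM2⟩ := hhalf m hx
    rw [hM, Nat.factorization_mul (by norm_num) (by omega), Nat.prime_two.factorization,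
      Finsupp.add_apply, Nat.factorization_eq_zero_of_not_dvd (by omega)]
    simp
  have hinj := inj a P hP (fun x hx y hy => by rw [hv2 x hx, hv2 y hy])
  have h2A := cancel_two φ _ (rad_odd a) hφR
  have hrel : ∀ x ∈ sqs a, ∃ (c : ℕ → ℤ) (s : ℤ), (s = 1 ∨ s = -1) ∧
      (∀ p ∈ P, (2 : ℤ) ∣ c p - (x + 1).factorization p) ∧
      ((∏ p ∈ P, g p ^ c p : Aˣ) : A) = s * φ ⟨0, 1⟩ := by
    intro x hx
    obtain ⟨m, rfl⟩ := hx.2.1
    obtain ⟨M, hM, hM2⟩ := hhalf m hx
    have hMP : ∀ p, p.Prime → p ∣ M → p ∈ P := by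
      intro p hp hpM
      rw [hP, Finset.mem_erase]
      refine ⟨?_, ?_⟩
      · rintro rfl
        omega
      · rw [← hx.2.2.2, hM]
        exact Nat.mem_primeFactors.2 ⟨hp, Dvd.dvd.mul_left hpM 2, by omega⟩
    obtain ⟨c, s, hs, hc, hG⟩ := odd_rel φ h2A P π hπ hev g hg (m : ℤ) (phi_m φ a m hx hφR) M
      (by exact_mod_cast (by rw [pow_two]; exact hM)) hMP
    refine ⟨c, s, hs, ?_, hG⟩
    intro p hp
    have h3 : p ≠ 2 := by
      rw [hP, Finset.mem_erase] at hp
      exact hp.1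
    have h4 : (m * m + 1).factorization p = M.factorization p := by
      rw [hM, Nat.factorization_mul (by norm_num) (by omega), Nat.prime_two.factorization,
        Finsupp.add_apply, Finsupp.single_eq_of_ne h3, zero_add]
    rw [h4]
    exact hc p hp
  have hKx : ∀ x ∈ sqs a, Multiplicative.ofAdd (cvec P x + cvec P x₀) ∈ K := by
    intro x hx
    obtain ⟨c, s, hs, hc, hG⟩ := hrel x hx
    obtain ⟨c', s', hs', hc', hG'⟩ := hrel x₀ hx₀
    have hI2 : φ ⟨0, 1⟩ * φ ⟨0, 1⟩ = -1 := by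
      rw [← map_mul]
      have : (⟨0, 1⟩ : GaussianInt) * ⟨0, 1⟩ = -1 := by simp [Zsqrtd.ext_iff]
      rw [this]
      simp
    obtain ⟨c'', h1, h2⟩ : ∃ c'' : ℕ → ℤ, (∀ p ∈ P, (2 : ℤ) ∣ c'' p - (c p + c' p)) ∧
        ∏ p ∈ P, g p ^ c'' p = 1 := by
      by_cases hss : s = s'
      · refine ⟨fun p => c p - c' p, fun p _ => ⟨-c' p, by ring⟩, ?_⟩
        have h3 : (∏ p ∈ P, g p ^ c p) = ∏ p ∈ P, g p ^ c' p := by
          apply Units.ext
          rw [hG, hG', hss]
        simp only [zpow_sub, Finset.prod_mul_distrib, Finset.prod_inv_distrib]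
        rw [h3, mul_inv_cancel]
      · have hss' : s = -s' := by omega
        refine ⟨fun p => c p + c' p, fun p _ => ⟨0, by ring⟩, ?_⟩
        simp only [zpow_add, Finset.prod_mul_distrib]
        apply Units.ext
        rw [Units.val_mul, hG, hG', hss', Units.val_one]
        push_cast
        have h3 : (s' : A) * s' = 1 := by
          rcases hs' with h | h <;> simp [h]
        linear_combination (-(s' : A) * s') * hI2 + h3
    have h3 := hK c'' h2
    have h4 : (fun p : P => ((c'' p : ℤ) : ZMod 2)) = cvec P x + cvec P x₀ := by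
      funext p
      have e1 := h1 p p.2
      have e2 := hc p p.2
      have e3 := hc' p p.2
      simp only [cvec, Pi.add_apply]
      have e4 : ((c'' p : ℤ) : ZMod 2) =
          ((((x + 1).factorization p : ℤ) + ((x₀ + 1).factorization p : ℤ) : ℤ) : ZMod 2) := by
        rw [ZMod.intCast_eq_intCast_iff_dvd_sub]
        push_cast
        omega
      rw [e4]
      push_cast
      rfl
    rw [h4] at h3
    exact h3
  have h6 : (sqs a).encard ≤ (K : Set (Multiplicative (P → ZMod 2))).encard := by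
    apply Set.encard_le_encard_of_injOn
      (f := fun x => Multiplicative.ofAdd (cvec P x + cvec P x₀))
    · intro x hx
      exact hKx x hx
    · intro x hx y hy hxy
      apply hinj hx hy
      have := Multiplicative.ofAdd.injective hxy
      simpa using this
  refine le_trans h6 (le_of_eq ?_)
  have h7 : (K : Set (Multiplicative (P → ZMod 2))).encard = ENat.card K := rfl
  rw [h7, ENat.card_eq_coe_natCard]

theorem even_main (ha : Even a) (ha0 : 0 < a) :
    (sqs a).encard + 1 ≤ ((Nat.card K : ℕ) : ℕ∞) := by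
  classical
  have hnot2 : 2 ∉ (a + 1).primeFactors := by
    intro h
    have h1 := (Nat.mem_primeFactors.1 h).2.1
    obtain ⟨k, rfl⟩ := ha
    omega
  have hP' : P = (a + 1).primeFactors := by rw [hP, Finset.erase_eq_of_notMem hnot2]
  have hv2 : ∀ x ∈ sqs a, (x + 1).factorization 2 = 0 := by
    intro x hx
    rw [← hx.2.2.2, ← Nat.support_factorization] at hnot2
    exact Finsupp.notMem_support_iff.1 hnot2
  have hinj := inj a P hP (fun x hx y hy => by rw [hv2 x hx, hv2 y hy])
  have hKx : ∀ x ∈ sqs a, Multiplicative.ofAdd (cvec P x) ∈ K := by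
    intro x hx
    obtain ⟨m, rfl⟩ := hx.2.1
    have hm2 : Even (m : ℤ) := by
      have h1 : 2 ∈ (m * m).primeFactors := by
        rw [hx.2.2.1]
        exact Nat.mem_primeFactors.2 ⟨Nat.prime_two, even_iff_two_dvd.1 ha, by omega⟩
      have h2 := (Nat.mem_primeFactors.1 h1).2.1
      have h3 : 2 ∣ m := by
        rcases (Nat.Prime.dvd_mul Nat.prime_two).1 h2 with h3 | h3 <;> exact h3
      exact even_iff_two_dvd.2 (by exact_mod_cast h3)
    obtain ⟨c, hc, hG⟩ := even_rel φ P π hπ hev g hg (m : ℤ) hm2 (phi_m φ a m hx hφR) (m * m + 1)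
      (by push_cast; ring) (by
        intro p hp hpM
        rw [hP', ← hx.2.2.2]
        exact Nat.mem_primeFactors.2 ⟨hp, hpM, by omega⟩)
    have h3 := hK c hG
    have h4 : (fun p : P => ((c p : ℤ) : ZMod 2)) = cvec P (m * m) := by
      funext p
      have e2 := hc p p.2
      simp only [cvec]
      have e4 : ((c p : ℤ) : ZMod 2) = (((m * m + 1).factorization p : ℤ) : ZMod 2) := by
        rw [ZMod.intCast_eq_intCast_iff_dvd_sub]
        push_cast
        omega
      rw [e4]
      push_cast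
      rfl
    rw [h4] at h3
    exact h3
  have hne : ∀ x ∈ sqs a, cvec P x ≠ 0 := by
    intro x hx h0
    obtain ⟨m, rfl⟩ := hx.2.1
    have h1 : ∀ p, (m * m + 1).factorization p % 2 = 0 := by
      intro p
      by_cases hp : p ∈ P
      · have h2 := congrFun h0 ⟨p, hp⟩
        simp only [cvec, Pi.zero_apply] at h2
        have h3 := (cast_eq_iff ((m * m + 1).factorization p) 0).1 (by rw [h2]; simp)
        simpa using h3
      · rw [hP', ← hx.2.2.2, ← Nat.support_factorization] at hp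
        rw [Finsupp.notMem_support_iff.1 hp, Nat.zero_mod]
    obtain ⟨D, y, z, hy, hz, h3, h4⟩ := exists_common (m * m + 1) 1 (by positivity) one_ne_zero
      (by intro p; rw [h1]; simp)
    have h5 : D = 1 := Nat.eq_one_of_mul_eq_one_right h4.symm
    rw [h5, one_mul] at h3
    have hm := pos_of_sq hx.1
    have h6 : m < y := by nlinarith
    nlinarith
  have h6 : (sqs a).encard ≤ ((K : Set (Multiplicative (P → ZMod 2))) \ {1}).encard := by
    apply Set.encard_le_encard_of_injOn (f := fun x => Multiplicative.ofAdd (cvec P x))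
    · intro x hx
      refine ⟨hKx x hx, ?_⟩
      intro h
      apply hne x hx
      exact Multiplicative.ofAdd.injective h
    · intro x hx y hy hxy
      exact hinj hx hy (Multiplicative.ofAdd.injective hxy)
  have h7 : ((K : Set (Multiplicative (P → ZMod 2))) \ {1}).encard + 1 =
      (K : Set (Multiplicative (P → ZMod 2))).encard :=
    Set.encard_sdiff_singleton_add_one (one_mem K)
  have h8 : (K : Set (Multiplicative (P → ZMod 2))).encard = ENat.card K := rfl
  rw [← ENat.card_eq_coe_natCard, ← h8, ← h7]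
  exact add_le_add h6 le_rfl

end

end Pool.Agent.Lib.MP_c831ba_nt.OP
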