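import Mathlib

namespace Pool.Agent.Lib.MP_c831ba_nt.OP

theorem unit_mul (D x y : ℤ) (h : x ^ 2 - D * y ^ 2 = -1) :
    (⟨-x, y⟩ : ℤ√D) * ⟨x, y⟩ = 1 := by
  rw [Zsqrtd.ext_iff]
  simp only [Zsqrtd.re_mul, Zsqrtd.im_mul, Zsqrtd.re_one, Zsqrtd.im_one]
  constructor
  · linear_combination (-1) * h
  · ring

theorem pow_coord_pos (D x y : ℤ) (hD : 1 ≤ D) (hx : 1 ≤ x) (hy : 1 ≤ y) (k : ℕ) :
    1 ≤ ((⟨x, y⟩ : ℤ√D) ^ k).re ∧ 0 ≤ ((⟨x, y⟩ : ℤ√D) ^ k).im := by
  induction k with
  | zero => simp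
  | succ k ih =>
    obtain ⟨h1, h2⟩ := ih
    rw [pow_succ]
    simp only [Zsqrtd.re_mul, Zsqrtd.im_mul]
    have h3 : 0 ≤ D * ((⟨x, y⟩ : ℤ√D) ^ k).im * y := by positivity
    constructor
    · nlinarith
    · nlinarith

theorem common_root (D : ℤ) : ∀ s : ℕ, ∀ m y n z : ℤ, 1 ≤ m → 1 ≤ y → 1 ≤ n → 1 ≤ z →
    m ^ 2 - D * y ^ 2 = -1 → n ^ 2 - D * z ^ 2 = -1 → y + z ≤ s →
    ∃ (x₁ y₁ : ℤ) (i j : ℕ), 1 ≤ x₁ ∧ 1 ≤ y₁ ∧ x₁ ^ 2 - D * y₁ ^ 2 = -1 ∧ Odd i ∧ Odd j ∧
      (⟨m, y⟩ : ℤ√D) = ⟨x₁, y₁⟩ ^ i ∧ (⟨n, z⟩ : ℤ√D) = ⟨x₁, y₁⟩ ^ j := by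
  intro s
  induction s with
  | zero =>
    intro m y n z hm hy hn hz h1 h2 hs
    exfalso
    push_cast at hs
    linarith
  | succ s ih =>
    intro m y n z hm hy hn hz h1 h2 hs
    wlog hyz : y ≤ z generalizing m y n z with H
    · obtain ⟨x₁, y₁, i, j, g1, g2, g3, g4, g5, g6, g7⟩ :=
        H n z m y hn hz hm hy h2 h1 (by linarith) (by linarith)
      exact ⟨x₁, y₁, j, i, g1, g2, g3, g5, g4, g7, g6⟩
    have hD : 1 ≤ D := by
      by_contra hc
      push Not at hc
      have : D * y ^ 2 ≤ 0 := mul_nonpos_of_nonpos_of_nonneg (by linarith) (by positivity)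
      nlinarith
    rcases eq_or_lt_of_le hyz with rfl | hlt
    · have hmn : m = n := by
        have h3 : m ^ 2 = n ^ 2 := by linarith
        have h4 := (pow_left_inj₀ (by linarith : (0:ℤ) ≤ m) (by linarith : (0:ℤ) ≤ n)
          (by norm_num : (2:ℕ) ≠ 0)).1 h3
        exact h4
      subst hmn
      exact ⟨m, y, 1, 1, hm, hy, h1, odd_one, odd_one, (pow_one _).symm, (pow_one _).symm⟩
    · -- `u = β / α ^ 2`
      obtain ⟨a', ha'⟩ : ∃ a' : ℤ, a' = n * (m ^ 2 + D * y ^ 2) - 2 * D * m * y * z := ⟨_, rfl⟩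
      obtain ⟨b', hb'⟩ : ∃ b' : ℤ, b' = z * (m ^ 2 + D * y ^ 2) - 2 * m * n * y := ⟨_, rfl⟩
      have hN : a' ^ 2 - D * b' ^ 2 = -1 := by
        rw [ha', hb']
        linear_combination (m ^ 2 - D * y ^ 2) ^ 2 * h2 - (m ^ 2 - D * y ^ 2 - 1) * h1
      have hb : 0 < b' := by
        have h5 : (2 * m * n * y) ^ 2 < (z * (m ^ 2 + D * y ^ 2)) ^ 2 := by
          have h6 : (z * (m ^ 2 + D * y ^ 2)) ^ 2 - (2 * m * n * y) ^ 2 =
              z ^ 2 + 4 * m ^ 2 * y ^ 2 := by
            linear_combination (-4 * m ^ 2 * y ^ 2) * h2 + z ^ 2 * (m ^ 2 - D * y ^ 2 - 1) * h1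
          have h7 : 0 < z ^ 2 + 4 * m ^ 2 * y ^ 2 := by positivity
          linarith
        have h8 : 2 * m * n * y < z * (m ^ 2 + D * y ^ 2) :=
          lt_of_pow_lt_pow_left₀ 2 (by positivity) h5
        rw [hb']; linarith
      have ha0 : a' ≠ 0 := by
        intro h0
        rw [h0] at hN
        have h5 : D * b' ^ 2 = 1 := by linarith
        have h6 : 1 ≤ b' ^ 2 := by nlinarith
        have h7 : D = 1 := by nlinarith
        rw [h7] at h1
        have h8 : m < y := by nlinarith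
        nlinarith
      rcases lt_or_gt_of_ne ha0 with hneg | hpos
      · -- `a' < 0`: use `w = α ^ 2 / β`
        have e1 : (-a') * z + b' * n = 2 * m * y := by
          rw [ha', hb']; linear_combination (-2 * m * y) * h2
        have e2 : (-a') * n + D * b' * z = m ^ 2 + D * y ^ 2 := by
          rw [ha', hb']; linear_combination (-(m ^ 2 + D * y ^ 2)) * h2
        have hnm : m ≤ n := by
          have h5 : m ^ 2 ≤ n ^ 2 := by
            have : y ^ 2 ≤ z ^ 2 := by nlinarith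
            nlinarith
          exact (pow_le_pow_iff_left₀ (by linarith) (by linarith) (by norm_num : (2:ℕ) ≠ 0)).1 h5
        have hby : b' < y := by
          by_contra hc
          push Not at hc
          have h5 : m ^ 2 ≤ (-a') ^ 2 := by
            have : y ^ 2 ≤ b' ^ 2 := by nlinarith
            nlinarith
          have h6 : m ≤ -a' :=
            (pow_le_pow_iff_left₀ (by linarith) (by linarith) (by norm_num : (2:ℕ) ≠ 0)).1 h5
          nlinarith
        obtain ⟨x₁, y₁, i, j, g1, g2, g3, g4, g5, g6, g7⟩ :=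
          ih m y (-a') b' hm hy (by linarith) (by linarith) h1
            (by linear_combination hN) (by push_cast at hs; linarith)
        have hw : (⟨-a', b'⟩ : ℤ√D) * ⟨n, z⟩ = ⟨m, y⟩ ^ 2 := by
          rw [pow_two, Zsqrtd.ext_iff]
          simp only [Zsqrtd.re_mul, Zsqrtd.im_mul]
          constructor
          · linear_combination e2
          · linear_combination e1
        have hγ : IsUnit (⟨x₁, y₁⟩ : ℤ√D) :=
          isUnit_iff_exists_inv'.2 ⟨_, unit_mul D x₁ y₁ g3⟩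
        rw [g6, g7, ← pow_mul] at hw
        have hji : j < i * 2 := by
          by_contra hc
          push Not at hc
          obtain ⟨k, rfl⟩ := Nat.exists_eq_add_of_le hc
          rw [pow_add, mul_assoc] at hw
          have h5 : (⟨x₁, y₁⟩ : ℤ√D) ^ k * ⟨n, z⟩ = 1 := by
            have h6 := (hγ.pow (i * 2)).mul_left_cancel (c := 1) (by rw [hw, mul_one])
            exact h6
          have h7 := congrArg Zsqrtd.im h5
          simp only [Zsqrtd.im_mul, Zsqrtd.im_one] at h7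
          obtain ⟨h8, h9⟩ := pow_coord_pos D x₁ y₁ hD g1 g2 k
          nlinarith
        refine ⟨x₁, y₁, i, i * 2 - j, g1, g2, g3, g4, ?_, g6, ?_⟩
        · rw [Nat.odd_sub (le_of_lt hji)]
          constructor
          · intro h; exact absurd h (by simp)
          · intro h; exact absurd g5 (by rwa [Nat.not_odd_iff_even])
        · have h5 : (⟨x₁, y₁⟩ : ℤ√D) ^ j * ⟨n, z⟩ =
              (⟨x₁, y₁⟩ : ℤ√D) ^ j * ⟨x₁, y₁⟩ ^ (i * 2 - j) := by
            rw [hw, ← pow_add, Nat.add_sub_cancel' (le_of_lt hji)]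
          exact (hγ.pow j).mul_left_cancel h5
      · -- `a' > 0`
        have e1 : b' * (m ^ 2 + D * y ^ 2) + 2 * m * y * a' = z := by
          rw [ha', hb']
          linear_combination (z * (m ^ 2 - D * y ^ 2 - 1)) * h1
        have e2 : a' * (m ^ 2 + D * y ^ 2) + 2 * D * m * y * b' = n := by
          rw [ha', hb']
          linear_combination (n * (m ^ 2 - D * y ^ 2 - 1)) * h1
        have hbz : b' < z := by
          have h5 : 1 ≤ m ^ 2 + D * y ^ 2 := by nlinarith
          have h6 : 0 < 2 * m * y * a' := by positivity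
          nlinarith
        obtain ⟨x₁, y₁, i, j, g1, g2, g3, g4, g5, g6, g7⟩ :=
          ih m y a' b' hm hy (by linarith) (by linarith) h1 hN (by push_cast at hs; linarith)
        refine ⟨x₁, y₁, i, j + i * 2, g1, g2, g3, g4, ?_, g6, ?_⟩
        · exact Odd.add_even g5 (by simp)
        · rw [pow_add, pow_mul, ← g6, ← g7, pow_two, Zsqrtd.ext_iff]
          simp only [Zsqrtd.re_mul, Zsqrtd.im_mul]
          constructor
          · linear_combination (-1) * e2
          · linear_combination (-1) * e1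

end Pool.Agent.Lib.MP_c831ba_nt.OP
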