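import Pool.Agent.Lib.MP_c831ba_nt.OP.AB
import Pool.Agent.Lib.MP_c831ba_nt.OP.Root

namespace Pool.Agent.Lib.MP_c831ba_nt.OP

theorem AB_add (x w : ℤ) (k l : ℕ) :
    (AB x w (k + l)).1 = (AB x w k).1 * (AB x w l).1 + w * (AB x w k).2 * (AB x w l).2 ∧
    (AB x w (k + l)).2 = (AB x w k).1 * (AB x w l).2 + (AB x w k).2 * (AB x w l).1 := by
  induction l with
  | zero => simp [AB]
  | succ l ih =>
    obtain ⟨h1, h2⟩ := ih
    rw [← add_assoc]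
    simp only [AB]
    rw [h1, h2]
    constructor <;> ring

theorem AB_norm (x : ℤ) (k : ℕ) :
    (AB x (x ^ 2 + 1) k).1 ^ 2 - (x ^ 2 + 1) * (AB x (x ^ 2 + 1) k).2 ^ 2 = (-1) ^ k := by
  induction k with
  | zero => simp [AB]
  | succ k ih =>
    simp only [AB]
    rw [pow_succ (-1 : ℤ) k, ← ih]
    ring

/-- A prime divisor of `B i` and `B j` divides `B (gcd i j)`. -/
theorem dvd_gcd (x : ℤ) (p : ℤ) (hp : Prime p) : ∀ s i j : ℕ, i + j ≤ s →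
    p ∣ (AB x (x ^ 2 + 1) i).2 → p ∣ (AB x (x ^ 2 + 1) j).2 →
    p ∣ (AB x (x ^ 2 + 1) (i.gcd j)).2 := by
  intro s
  induction s with
  | zero =>
    intro i j hs hi hj
    have h1 : i = 0 := by omega
    have h2 : j = 0 := by omega
    subst h1; subst h2
    simpa using hi
  | succ s ih =>
    intro i j hs hi hj
    wlog hij : i ≤ j generalizing i j with H
    · rw [Nat.gcd_comm]
      exact H j i (by omega) hj hi (by omega)
    rcases Nat.eq_zero_or_pos i with rfl | hi0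
    · rwa [Nat.gcd_zero_left]
    · obtain ⟨k, rfl⟩ := Nat.exists_eq_add_of_le hij
      have h1 : p ∣ (AB x (x ^ 2 + 1) k).2 := by
        rw [(AB_add x (x ^ 2 + 1) i k).2] at hj
        have h2 : p ∣ (AB x (x ^ 2 + 1) i).1 * (AB x (x ^ 2 + 1) k).2 :=
          (dvd_add_left (Dvd.dvd.mul_right hi _)).1 hj
        rcases hp.dvd_or_dvd h2 with h3 | h3
        · exfalso
          have h4 := AB_norm x i
          have h5 : p ∣ (-1) ^ i := by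
            rw [← h4]
            exact dvd_sub (Dvd.dvd.pow h3 (by norm_num))
              (Dvd.dvd.mul_left (Dvd.dvd.pow hi (by norm_num)) _)
          exact hp.not_dvd_one ((isUnit_of_dvd_unit h5 (IsUnit.pow _ (by simp))).dvd)
        · exact h3
      have h2 := ih i k (by omega) hi h1
      rwa [Nat.gcd_self_add_right]

/-- If all prime divisors of `B j`, `j` odd, divide `x ^ 2 + 1`, then `j = 1`. -/
theorem key (x : ℤ) (hx : 1 ≤ x) (j : ℕ) (hj : Odd j)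
    (h : ∀ p : ℕ, p.Prime → (p : ℤ) ∣ (AB x (x ^ 2 + 1) j).2 → (p : ℤ) ∣ x ^ 2 + 1) : j = 1 := by
  by_contra hj1
  have hj3 : 3 ≤ j := by
    obtain ⟨k, rfl⟩ := hj
    omega
  have hw : (1 : ℤ) ≤ x ^ 2 + 1 := by nlinarith
  have hbig := AB_big x (x ^ 2 + 1) hx hw j hj3
  have hj3' : (3 : ℤ) ≤ j := by exact_mod_cast hj3
  -- a prime divisor of `B j`
  obtain ⟨p, hp, hpB⟩ : ∃ p : ℕ, p.Prime ∧ (p : ℤ) ∣ (AB x (x ^ 2 + 1) j).2 := by
    obtain ⟨p, hp, hd⟩ := Nat.exists_prime_and_dvd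
      (n := (AB x (x ^ 2 + 1) j).2.natAbs) (by omega)
    exact ⟨p, hp, Int.natCast_dvd.2 hd⟩
  have hpw := h p hp hpB
  have hpp : Prime (p : ℤ) := Nat.prime_iff_prime_int.1 hp
  have hndx : ∀ q : ℤ, Prime q → q ∣ x ^ 2 + 1 → ¬ q ∣ x := by
    intro q hq h1 h2
    exact hq.not_dvd_one ((dvd_add_right (Dvd.dvd.pow h2 (by norm_num))).1 h1)
  have hpj : p ∣ j := by
    obtain ⟨r, s, h1, -⟩ := AB_congr x (x ^ 2 + 1) j
    have h2 : (p : ℤ) ∣ j * x ^ (j + 2) := by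
      have h3 : (j : ℤ) * x ^ (j + 2) = x ^ 3 * (AB x (x ^ 2 + 1) j).2 -
          (x ^ 2 + 1) * ((j.choose 3) * x ^ j + (x ^ 2 + 1) * r) := by
        rw [h1]; ring
      rw [h3]
      exact dvd_sub (Dvd.dvd.mul_left hpB _) (Dvd.dvd.mul_right hpw _)
    rcases hpp.dvd_or_dvd h2 with h3 | h3
    · exact Int.natCast_dvd_natCast.1 h3
    · exact absurd (hpp.dvd_of_dvd_pow h3) (hndx _ hpp hpw)
  have hp2 : p ≠ 2 := by
    rintro rfl
    obtain ⟨k, rfl⟩ := hj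
    omega
  have hp3 : p ≠ 3 := by
    rintro rfl
    have h1 : (x ^ 2 + 1) % 3 = 0 := Int.emod_eq_zero_of_dvd hpw
    have h2 : x % 3 = 0 ∨ x % 3 = 1 ∨ x % 3 = 2 := by omega
    rcases h2 with h2 | h2 | h2 <;> simp [pow_two, Int.add_emod, Int.mul_emod, h2] at h1
  have hp4 : p ≠ 4 := by rintro rfl; exact absurd hp (by decide)
  have hp5 : 5 ≤ p := by have := hp.two_le; omega
  obtain ⟨l, rfl⟩ := hpj
  have hl : 1 ≤ l := by
    rcases Nat.eq_zero_or_pos l with rfl | hl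
    · omega
    · exact hl
  obtain ⟨hx', hy⟩ := AB_pos x (x ^ 2 + 1) hx hw l
  have hnorm := AB_norm x l
  have hz := pow_form (x ^ 2 + 1) x 1 l
  rw [one_pow, mul_one, one_mul] at hz
  have hz2 := pow_form (x ^ 2 + 1) x 1 (p * l)
  rw [one_pow, mul_one, one_mul] at hz2
  generalize (AB x (x ^ 2 + 1) l).1 = x' at hx' hz hnorm
  generalize (AB x (x ^ 2 + 1) l).2 = y at hy hz hnorm
  have hl' : (1 : ℤ) ≤ l := by exact_mod_cast hl
  have hy1 : 1 ≤ y := le_trans hl' hy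
  rw [mul_comm p l, pow_mul, hz, pow_form] at hz2
  have hB2 : y * (AB x' ((x ^ 2 + 1) * y ^ 2) p).2 = (AB x (x ^ 2 + 1) (l * p)).2 :=
    congrArg Zsqrtd.im hz2
  rw [mul_comm l p] at hB2
  have hw' : (1 : ℤ) ≤ (x ^ 2 + 1) * y ^ 2 := by
    have : (1 : ℤ) ≤ y ^ 2 := by nlinarith
    nlinarith
  have hbig' := AB_big x' ((x ^ 2 + 1) * y ^ 2) hx' hw' p (by omega)
  obtain ⟨r, s, h1, -⟩ := AB_congr x' ((x ^ 2 + 1) * y ^ 2) p
  generalize (AB x' ((x ^ 2 + 1) * y ^ 2) p).2 = B at hB2 hbig' h1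
  have hBw : ∀ q : ℕ, q.Prime → (q : ℤ) ∣ B → (q : ℤ) ∣ x ^ 2 + 1 := by
    intro q hq h2
    apply h q hq
    rw [← hB2]
    exact Dvd.dvd.mul_left h2 _
  have hndx' : ∀ q : ℤ, Prime q → q ∣ x ^ 2 + 1 → ¬ q ∣ x' := by
    intro q hq h2 h3
    have h5 : q ∣ (-1) ^ l := by
      rw [← hnorm]
      exact dvd_sub (Dvd.dvd.pow h3 (by norm_num)) (Dvd.dvd.mul_right h2 _)
    exact hq.not_dvd_one ((isUnit_of_dvd_unit h5 (IsUnit.pow _ (by simp))).dvd)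
  -- all prime divisors of `B` are equal to `p`
  have hBp : ∀ q : ℕ, q.Prime → (q : ℤ) ∣ B → q = p := by
    intro q hq h2
    have hqq : Prime (q : ℤ) := Nat.prime_iff_prime_int.1 hq
    have h3 := hBw q hq h2
    have h4 : (q : ℤ) ∣ p * x' ^ (p + 2) := by
      have h5 : (p : ℤ) * x' ^ (p + 2) = x' ^ 3 * B -
          (x ^ 2 + 1) * (y ^ 2 * ((p.choose 3) * x' ^ p + (x ^ 2 + 1) * y ^ 2 * r)) := by
        rw [h1]; ring
      rw [h5]
      exact dvd_sub (Dvd.dvd.mul_left h2 _) (Dvd.dvd.mul_right h3 _)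
    rcases hqq.dvd_or_dvd h4 with h5 | h5
    · exact (Nat.prime_dvd_prime_iff_eq hq hp).1 (Int.natCast_dvd_natCast.1 h5)
    · exact absurd (hqq.dvd_of_dvd_pow h5) (hndx' _ hqq h3)
  have hB1 : B.natAbs ≠ 1 := by
    have : (5 : ℤ) ≤ p := by exact_mod_cast hp5
    omega
  obtain ⟨q, hq, hqB⟩ := Nat.exists_prime_and_dvd hB1
  have hqB' : (q : ℤ) ∣ B := Int.natCast_dvd.2 hqB
  obtain rfl := hBp q hq hqB'
  obtain ⟨t, ht⟩ := hqB'
  have hq0 : (0 : ℤ) < q := by exact_mod_cast hq.pos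
  have ht1 : 1 < t := by
    rw [ht] at hbig'
    by_contra hc
    push Not at hc
    nlinarith
  obtain ⟨q', hq', hqt⟩ := Nat.exists_prime_and_dvd (n := t.natAbs) (by omega)
  have hqt' : (q' : ℤ) ∣ t := Int.natCast_dvd.2 hqt
  obtain rfl := hBp q' hq' (by rw [ht]; exact Dvd.dvd.mul_left hqt' _)
  obtain ⟨t', ht'⟩ := hqt'
  have hch : (q' : ℤ) ∣ (q'.choose 3 : ℤ) := by
    exact_mod_cast hq.dvd_choose_self (by norm_num) (by omega)
  obtain ⟨C, hC⟩ := hch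
  obtain ⟨E, hE⟩ := hpw
  have h2 : (q' : ℤ) * (q' : ℤ) ∣ q' * x' ^ (q' + 2) := by
    refine ⟨x' ^ 3 * t' - C * x' ^ q' * (E * y ^ 2) - (E * y ^ 2) ^ 2 * r, ?_⟩
    rw [hC, hE, ht, ht'] at h1
    linear_combination (-1) * h1
  have h3 : (q' : ℤ) ∣ x' ^ (q' + 2) := Int.dvd_of_mul_dvd_mul_left hq0.ne' h2
  exact hndx' _ hpp ⟨E, hE⟩ (hpp.dvd_of_dvd_pow h3)

/-- Two solutions of `m ^ 2 + 1 = D y ^ 2` with the same primes of `m ^ 2 + 1` are equal. -/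
theorem same_class (D m y n z : ℤ) (hm : 1 ≤ m) (hy : 1 ≤ y) (hn : 1 ≤ n) (hz : 1 ≤ z)
    (h1 : m ^ 2 - D * y ^ 2 = -1) (h2 : n ^ 2 - D * z ^ 2 = -1)
    (hrad : ∀ p : ℕ, p.Prime → ((p : ℤ) ∣ m ^ 2 + 1 ↔ (p : ℤ) ∣ n ^ 2 + 1)) : m = n := by
  have hD : 1 ≤ D := by
    by_contra hc
    push Not at hc
    have : D * y ^ 2 ≤ 0 := mul_nonpos_of_nonpos_of_nonneg (by linarith) (by positivity)
    nlinarith
  obtain ⟨x₁, y₁, i, j, g1, g2, g3, g4, g5, g6, g7⟩ :=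
    common_root D (y + z).toNat m y n z hm hy hn hz h1 h2 (by
      rw [Int.toNat_of_nonneg (by linarith)])
  have hg0 : 0 < i.gcd j := Nat.gcd_pos_of_pos_left _ g4.pos
  obtain ⟨i', hi'⟩ := Nat.gcd_dvd_left i j
  obtain ⟨j', hj'⟩ := Nat.gcd_dvd_right i j
  have hgo : Odd (i.gcd j) := by
    rw [hi'] at g4; exact (Nat.odd_mul.1 g4).1
  have hio : Odd i' := by
    rw [hi'] at g4; exact (Nat.odd_mul.1 g4).2
  have hjo : Odd j' := by
    rw [hj'] at g5; exact (Nat.odd_mul.1 g5).2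
  have hcop : i'.gcd j' = 1 := by
    have h3 : (i.gcd j) * (i'.gcd j') = i.gcd j * 1 := by
      rw [← Nat.gcd_mul_left, ← hi', ← hj', mul_one]
    exact Nat.eq_of_mul_eq_mul_left hg0 h3
  -- the new root
  obtain ⟨hx, hy'⟩ := pow_coord_pos D x₁ y₁ hD g1 g2 (i.gcd j)
  have hnx : ((⟨x₁, y₁⟩ : ℤ√D) ^ (i.gcd j)).re ^ 2 -
      D * ((⟨x₁, y₁⟩ : ℤ√D) ^ (i.gcd j)).im ^ 2 = -1 := by
    have h3 : ((⟨x₁, y₁⟩ : ℤ√D) ^ (i.gcd j)).norm = (-1) ^ (i.gcd j) := by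
      have h4 : ((⟨x₁, y₁⟩ : ℤ√D) ^ (i.gcd j)).norm = (⟨x₁, y₁⟩ : ℤ√D).norm ^ (i.gcd j) :=
        map_pow Zsqrtd.normMonoidHom _ _
      rw [h4, Zsqrtd.norm_def]
      congr 1
      linear_combination g3
    rw [hgo.neg_one_pow, Zsqrtd.norm_def] at h3
    linear_combination h3
  rw [hi', pow_mul] at g6
  rw [hj', pow_mul] at g7
  generalize (⟨x₁, y₁⟩ : ℤ√D) ^ (i.gcd j) = γ at hx hy' hnx g6 g7
  obtain ⟨x, y₀⟩ := γ
  simp only at hx hy' hnx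
  have hw : D * y₀ ^ 2 = x ^ 2 + 1 := by linear_combination (-1) * hnx
  rw [pow_form, hw] at g6 g7
  have e1 : y = y₀ * (AB x (x ^ 2 + 1) i').2 := congrArg Zsqrtd.im g6
  have e2 : z = y₀ * (AB x (x ^ 2 + 1) j').2 := congrArg Zsqrtd.im g7
  have e3 : m = (AB x (x ^ 2 + 1) i').1 := congrArg Zsqrtd.re g6
  have e4 : n = (AB x (x ^ 2 + 1) j').1 := congrArg Zsqrtd.re g7
  have f1 : m ^ 2 + 1 = (x ^ 2 + 1) * (AB x (x ^ 2 + 1) i').2 ^ 2 := by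
    have : m ^ 2 + 1 = D * y ^ 2 := by linear_combination h1
    rw [this, e1, ← hw]; ring
  have f2 : n ^ 2 + 1 = (x ^ 2 + 1) * (AB x (x ^ 2 + 1) j').2 ^ 2 := by
    have : n ^ 2 + 1 = D * z ^ 2 := by linear_combination h2
    rw [this, e2, ← hw]; ring
  have hB1 : (AB x (x ^ 2 + 1) 1).2 = 1 := by simp [AB]
  have hmain : ∀ i' j' : ℕ, i'.gcd j' = 1 →
      (∀ p : ℕ, p.Prime → (p : ℤ) ∣ (x ^ 2 + 1) * (AB x (x ^ 2 + 1) j').2 ^ 2 →
        (p : ℤ) ∣ (x ^ 2 + 1) * (AB x (x ^ 2 + 1) i').2 ^ 2) → Odd j' → j' = 1 := by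
    intro i' j' hc hr ho
    apply key x hx j' ho
    intro p hp hpB
    have hpp : Prime (p : ℤ) := Nat.prime_iff_prime_int.1 hp
    have h3 := hr p hp (Dvd.dvd.mul_left (Dvd.dvd.pow hpB (by norm_num)) _)
    rcases hpp.dvd_or_dvd h3 with h4 | h4
    · exact h4
    · exfalso
      have h5 := dvd_gcd x p hpp _ i' j' le_rfl (hpp.dvd_of_dvd_pow h4) hpB
      rw [hc, hB1] at h5
      exact hpp.not_dvd_one h5
  have hj1 : j' = 1 := hmain i' j' hcop (by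
    intro p hp h3
    rw [← f2] at h3
    rw [← f1]
    exact (hrad p hp).2 h3) hjo
  have hi1 : i' = 1 := hmain j' i' (by rw [Nat.gcd_comm]; exact hcop) (by
    intro p hp h3
    rw [← f1] at h3
    rw [← f2]
    exact (hrad p hp).1 h3) hio
  rw [e3, e4, hi1, hj1]

end Pool.Agent.Lib.MP_c831ba_nt.OP
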